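import Pool.Agent.K3h1.TF.Stm

/-!
# Project TF, brick UEX: a Fermat quotient that does not vanish
-/

set_option autoImplicit false

namespace Pool.Agent.K3h60.TF

open Pool.Agent.K3h1.TF

/-- UEX: a Fermat quotient that does not vanish -/
theorem t_UEX : S_UEX := by
  intro p hp h3
  by_contra hcon
  push Not at hcon
  have hcl : ∀ u : ℕ, 1 ≤ u → u < p → ((u : ℤ)) ^ p ≡ u [ZMOD ((p : ℤ) ^ 2)] := by
    intro u hu
    induction u, hu using Nat.le_induction with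
    | base => intro _; simp
    | succ u hu ih =>
      intro hup
      have h1 := ih (by omega)
      have h2 : (1 + (u : ℤ) ^ p) ^ (p - 1) ≡ 1 [ZMOD ((p : ℤ) ^ 2)] := by
        have h3' := hcon u (by omega) hup
        have h4 : 1 ≤ (1 + u ^ p) ^ (p - 1) := Nat.one_le_pow _ _ (by omega)
        have h5 : ((p ^ 2 : ℕ) : ℤ) ∣ (((1 + u ^ p) ^ (p - 1) - 1 : ℕ) : ℤ) :=
          Int.natCast_dvd_natCast.2 h3'
        rw [Nat.cast_sub h4] at h5
        push_cast at h5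
        exact (Int.modEq_iff_dvd.2 h5).symm
      have h6 : (1 + (u : ℤ) ^ p) ≡ 1 + u [ZMOD ((p : ℤ) ^ 2)] := Int.ModEq.add_left 1 h1
      have h7 : (1 + (u : ℤ) ^ p) ^ p ≡ (1 + u) ^ p [ZMOD ((p : ℤ) ^ 2)] := h6.pow p
      have h8 : (1 + (u : ℤ) ^ p) ^ p = (1 + (u : ℤ) ^ p) ^ (p - 1) * (1 + (u : ℤ) ^ p) := by
        rw [← pow_succ, Nat.sub_add_cancel (by omega)]
      have h9 : (1 + (u : ℤ) ^ p) ^ p ≡ 1 * (1 + u) [ZMOD ((p : ℤ) ^ 2)] := by
        rw [h8]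
        exact h2.mul h6
      have h10 := h7.symm.trans h9
      rw [one_mul] at h10
      push_cast
      rw [add_comm (u : ℤ) 1]
      exact h10
  have h1 := hcl (p - 1) (by omega) (by omega)
  have h2 : ((p : ℤ) ^ (1 + 1)) ∣ ((p - 1 : ℕ) : ℤ) ^ p ^ 1 - (-1) ^ p ^ 1 := by
    apply dvd_sub_pow_of_dvd_sub
    rw [Nat.cast_sub (by omega)]
    simp
  rw [pow_one] at h2
  have hodd : Odd p := hp.odd_of_ne_two (by omega)
  rw [hodd.neg_one_pow] at h2
  have h3' : ((p : ℤ) ^ 2) ∣ ((p - 1 : ℕ) : ℤ) - ((p - 1 : ℕ) : ℤ) ^ p := Int.modEq_iff_dvd.1 h1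
  have h4 : ((p : ℤ) ^ 2) ∣ (p : ℤ) := by
    have h5 := dvd_add h3' h2
    rw [Nat.cast_sub (by omega)] at h5
    push_cast at h5
    have h6 : (p : ℤ) - 1 - ((p : ℤ) - 1) ^ p + (((p : ℤ) - 1) ^ p - -1) = p := by ring
    rwa [h6] at h5
  have h5 := Int.le_of_dvd (by exact_mod_cast hp.pos) h4
  have h6 : (3 : ℤ) ≤ p := by exact_mod_cast h3
  nlinarith

end Pool.Agent.K3h60.TF
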